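import Pool.Agent.helper48.TH.Spec2

set_option autoImplicit false

namespace TP.TW

open DP MeasureTheory Finset

theorem SUX (h1 : SUG_stmt) (h2 : D3_stmt) : SUX_stmt := by
  obtain ⟨C, hC, h⟩ := h1 1
  refine ⟨2 * C, by positivity, fun n A Ω B hn hA hΩ hT => ?_⟩
  have hRS := h2 A Ω B hT
  have hmain := h n (fun β => A ∪ B β) (A ∪ Ω)
    (fun v => (if v ∈ A then 1 else 0) + Pr {β | v ∈ B β}) 2 hn (union_subset hA hΩ) hRS
  refine hmain.trans (le_of_eq ?_)
  have e1 : ∑ v ∈ A ∪ Ω, ((if v ∈ A then (1 : ℝ) else 0) + Pr {β | v ∈ B β}) =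
      #A + ∑ v ∈ Ω, Pr {β | v ∈ B β} := by
    rw [sum_add_distrib]
    congr 1
    · rw [sum_ite_mem, sum_const, nsmul_eq_mul, mul_one, inter_eq_right.2 subset_union_left]
    · refine (sum_subset subset_union_right ?_).symm
      intro v _ hv
      have : {β : V → Bool | v ∈ B β} = ∅ := by
        ext β
        simp only [Set.mem_setOf_eq, Set.mem_empty_iff_false, iff_false]
        exact fun hvB => hv (hT.2.2.1 β hvB)
      rw [this]
      exact measureReal_empty
  rw [e1]
  ring

end TP.TW
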